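import Mathlib

namespace Pool.Agent.H.MP_8c6834_co

def ch : List (List ℕ) := [[0, 1, 2, 3, 7, 11, 15], [0, 1, 2, 6, 7, 11, 15], [0, 1, 2, 6, 10, 11, 15], [0, 1, 2, 6, 10, 14, 15], [0, 1, 5, 6, 7, 11, 15], [0, 1, 5, 6, 10, 11, 15], [0, 1, 5, 6, 10, 14, 15], [0, 1, 5, 9, 10, 11, 15], [0, 1, 5, 9, 10, 14, 15], [0, 1, 5, 9, 13, 14, 15], [0, 4, 5, 6, 7, 11, 15], [0, 4, 5, 6, 10, 11, 15], [0, 4, 5, 6, 10, 14, 15], [0, 4, 5, 9, 10, 11, 15], [0, 4, 5, 9, 10, 14, 15], [0, 4, 5, 9, 13, 14, 15], [0, 4, 8, 9, 10, 11, 15], [0, 4, 8, 9, 10, 14, 15], [0, 4, 8, 9, 13, 14, 15], [0, 4, 8, 12, 13, 14, 15]]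

def ind (T : List ℕ) : Bool :=
  T.all (fun x => ch.any (fun c => c.elem x && c.all (fun i => i == x || !T.elem i)))

def go : ℕ → List ℕ → Bool
  | 0, _ => false
  | f + 1, T => match ch.find? (fun c => c.all (fun i => !T.elem i)) with
    | none => decide (T.length ≤ 4)
    | some c => c.all (fun x => !ind (x :: T) || go f (x :: T))

lemma go_true : go 10 [] = true := by decide +kernel

lemma go_sound (S : Finset ℕ) (cut : ∀ c ∈ ch, ∃ x ∈ c, x ∈ S)
    (priv : ∀ x ∈ S, ∃ c ∈ ch, ∀ i ∈ c, i ∈ S → i = x) :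
    ∀ f T, go f T = true → (∀ x ∈ T, x ∈ S) → S.card ≤ 4 := by
  intro f
  induction f with
  | zero => intro T h; simp [go] at h
  | succ f ih =>
    intro T h hT
    unfold go at h
    split at h
    · rename_i hn
      rw [List.find?_eq_none] at hn
      have : S ⊆ T.toFinset := by
        intro x hx
        obtain ⟨c, c1, c2⟩ := priv x hx
        have := hn c c1
        simp only [List.elem_eq_mem, List.all_eq_true, Bool.not_eq_eq_eq_not, Bool.not_true,
          decide_eq_false_iff_not, not_forall, not_not] at this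
        obtain ⟨i, i1, i2⟩ := this
        rw [← c2 i i1 (hT i i2)]
        simpa using i2
      exact (Finset.card_le_card this).trans ((List.toFinset_card_le T).trans (by simpa using h))
    · rename_i c hc
      obtain ⟨x, x1, x2⟩ := cut c (List.mem_of_find?_eq_some hc)
      have hT' : ∀ y ∈ x :: T, y ∈ S := by
        intro y hy
        rcases List.mem_cons.1 hy with rfl | hy
        exacts [x2, hT y hy]
      have hi : ind (x :: T) = true := by
        unfold ind
        rw [List.all_eq_true]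
        intro y hy
        obtain ⟨c, c1, c2⟩ := priv y (hT' y hy)
        rw [List.any_eq_true]
        refine ⟨c, c1, ?_⟩
        rw [Bool.and_eq_true, List.all_eq_true]
        refine ⟨?_, ?_⟩
        · obtain ⟨z, z1, z2⟩ := cut c c1
          rw [← c2 z z1 z2]
          simpa using z1
        intro i hi
        by_cases h : i ∈ x :: T
        · simp [c2 i hi (hT' i h)]
        · simp only [List.elem_eq_mem, h]; simp
      have := List.all_eq_true.1 h x x1
      rw [hi] at this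
      exact ih _ (by simpa using this) hT'

def lt4 (a b : ℕ) : Bool := Nat.ble (a % 4) (b % 4) && Nat.ble (a / 4) (b / 4) && !Nat.beq a b

def ext : ℕ → ℕ → List ℕ → Bool
  | 0, a, l => ch.elem (a :: l).reverse
  | f + 1, a, l => (List.range 16).all (fun b => !lt4 a b || ext f b (a :: l))

lemma ext_true : (List.range 16).all (fun a => ext 6 a []) = true := by decide +kernel

lemma chains (a0 a1 a2 a3 a4 a5 a6 : ℕ) (h0 : a0 < 16) (h1 : a1 < 16) (h2 : a2 < 16)
    (h3 : a3 < 16) (h4 : a4 < 16) (h5 : a5 < 16) (h6 : a6 < 16) (l0 : lt4 a0 a1 = true)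
    (l1 : lt4 a1 a2 = true) (l2 : lt4 a2 a3 = true) (l3 : lt4 a3 a4 = true)
    (l4 : lt4 a4 a5 = true) (l5 : lt4 a5 a6 = true) : [a0, a1, a2, a3, a4, a5, a6] ∈ ch := by
  have step : ∀ f a b l, ext (f + 1) a l = true → b < 16 → lt4 a b = true →
      ext f b (a :: l) = true := by
    intro f a b l h hb hl
    have := List.all_eq_true.1 h b (List.mem_range.2 hb)
    simpa [hl] using this
  have := step _ _ _ _ (step _ _ _ _ (step _ _ _ _ (step _ _ _ _ (step _ _ _ _ (step _ _ _ _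
    (List.all_eq_true.1 ext_true a0 (List.mem_range.2 h0)) h1 l0) h2 l1) h3 l2) h4 l3) h5 l4) h6 l5
  simpa [ext] using this

def Fl : List ℕ := [0, 1, 5, 9, 10, 14, 15, 19, 20, 24]
def Ll : List (List ℕ) := [[0, 5, 6, 9, 14, 19, 24], [0, 5, 10, 11, 14, 19, 24], [0, 5, 10, 15, 16, 19, 24], [0, 5, 10, 15, 20, 21, 24], [0, 1, 2, 9, 14, 19, 24], [0, 5, 7, 9, 14, 19, 24], [0, 5, 10, 12, 14, 19, 24], [0, 5, 10, 15, 17, 19, 24], [0, 5, 10, 15, 20, 22, 24], [0, 1, 3, 9, 14, 19, 24], [0, 5, 8, 9, 14, 19, 24], [0, 5, 10, 13, 14, 19, 24], [0, 5, 10, 15, 18, 19, 24], [0, 5, 10, 15, 20, 23, 24], [0, 1, 4, 9, 14, 19, 24]]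
def Hl : List ℕ := [0, 1, 0, 0, 0, 1, 0, 0, 0, 2, 2, 0, 0, 0, 3, 3, 0, 0, 0, 4, 4, 0, 0, 0, 5]

end Pool.Agent.H.MP_8c6834_co
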